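import Pool.Agent.Lib.MP_1304b2_co.Main

namespace Pool.Agent.Results.MP_1304b2_co.Formula

open Pool.Agent.Lib.MP_1304b2_co

/-- `L(T) = w - b`, with `w`, `b` the numbers of white and black vertices that are not trapped:
in `T + (-(w - b))` whoever moves first loses. -/
theorem result {V : Type} [Fintype V] [DecidableEq V] (T : SimpleGraph V) [DecidableRel T.Adj]
    (hT : T.IsTree) (c : V → Bool) (p : Bool) :
    LosesFirst T c p (Finset.univ,
      -(({x | ¬ Trapped T c x ∧ c x = true}.ncard : ℤ) -
        ({x | ¬ Trapped T c x ∧ c x = false}.ncard : ℤ))) :=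
  main hT p

end Pool.Agent.Results.MP_1304b2_co.Formula
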